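import Pool.Agent.H22.QZ.Alg

/-!
# Quadratic algebras with more than `n²/4` relations: one integral presentation for all rings
-/

set_option autoImplicit false

namespace Pool.Agent.Results.MP_f6e06e_al.IntegralPresentations

open Pool.Agent.H22.QZ MvPolynomial

universe u v

/-- Let `n, d` with `d > n² / 4`. There are `N`, a polynomial `P` with integral coefficients in the
`d n²` coefficients of `d` quadratic relations in `n` letters, and integral coefficients `c` such
that:
1. over every commutative ring `K` (in particular over every field) the `d` relations with the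
coefficients `c` are linearly independent if `d ≤ n²`, and the quadratic algebra over `K` with
these relations is a finitely generated `K`-module (finite dimensional if `K` is a field);
2. in every ring `A`, commutative or not, all products of `N` of the elements `a_1, …, a_n`
vanish if these elements satisfy the relations with the coefficients `c`;
3. `P(c) = 1`, and 1. and 2. hold for all families of relations with coefficients `x` in a
commutative ring `K` for which `P(x)` is invertible in `K`, 2. for the `K`-algebras `A`. -/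
theorem result (n d : ℕ) (h : n ^ 2 < 4 * d) :
    ∃ (N : ℕ) (P : MvPolynomial (Fin d × Fin n × Fin n) ℤ) (c : Fin d × Fin n × Fin n → ℤ),
      (∀ (K : Type u) [CommRing K],
        (∀ k, quad (fun y => (c y : K)) k ∈ Submodule.span K (Set.range
          fun p : Fin n × Fin n => FreeAlgebra.ι K p.1 * FreeAlgebra.ι K p.2)) ∧
        (d ≤ n ^ 2 → LinearIndependent K (quad fun y => (c y : K))) ∧
        Module.Finite K (QuadAlg fun y => (c y : K))) ∧
      (∀ (A : Type v) [Ring A] (a : Fin n → A),
        (∀ k, ∑ i, ∑ j, c (k, i, j) • (a i * a j) = 0) →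
        ∀ w : Fin N → Fin n, (List.ofFn fun s => a (w s)).prod = 0) ∧
      eval c P = 1 ∧
      (∀ (K : Type u) [CommRing K] (x : Fin d × Fin n × Fin n → K), IsUnit (aeval x P) →
        (d ≤ n ^ 2 → LinearIndependent K (quad x)) ∧
        Module.Finite K (QuadAlg x) ∧
        ∀ (A : Type v) [Ring A] [Algebra K A] (a : Fin n → A),
          (∀ k, ∑ i, ∑ j, x (k, i, j) • (a i * a j) = 0) →
          ∀ w : Fin N → Fin n, (List.ofFn fun s => a (w s)).prod = 0) := by
  classical
  obtain ⟨c, hσ, hc⟩ := exists_family_int.{0} n d h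
  obtain ⟨N, hN⟩ := uniform_int c hc
  obtain ⟨Q, hQ1, hQ2⟩ := bezout.{u} c hN
  obtain ⟨Q', hQ1', hQ2'⟩ := bezout.{0} c hN
  obtain ⟨D, hD1, hD2⟩ : ∃ D : MvPolynomial (Fin d × Fin n × Fin n) ℤ,
      eval (fun y => c y.1 y.2.1 y.2.2) D = 1 ∧
      (d ≤ n ^ 2 → ∀ (K : Type u) [CommRing K] (x : Fin d × Fin n × Fin n → K),
        IsUnit (aeval x D) → LinearIndependent K (quad x)) := by
    by_cases hdn : d ≤ n ^ 2
    · obtain ⟨σ, hσ⟩ := hσ hdn
      obtain ⟨ε, hε⟩ := isUnit_cdet σ c hσ
      refine ⟨C (↑ε⁻¹ : ℤ) * cdet σ (fun y => X y), ?_, fun _ K _ x hx => ?_⟩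
      · rw [map_mul, eval_C, map_cdet]
        simp only [eval_X]
        rw [← hε]
        exact ε.inv_mul
      · refine li_quad x (indep_of_cdet σ x ?_)
        rw [map_mul] at hx
        have h1 := isUnit_of_mul_isUnit_right hx
        have h2 := map_cdet ((aeval x : MvPolynomial (Fin d × Fin n × Fin n) ℤ →ₐ[ℤ] K) :
          MvPolynomial (Fin d × Fin n × Fin n) ℤ →+* K) σ (fun y => X y)
        have h3 : aeval x (cdet σ (fun y => X (R := ℤ) y)) = cdet σ x := by
          simpa using h2
        rw [← h3]
        exact h1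
    · exact ⟨1, by simp, fun h => absurd h hdn⟩
  have hmain : ∀ (K : Type u) [CommRing K] (x : Fin d × Fin n × Fin n → K),
      IsUnit (aeval x (D * (Q * Q'))) →
        (d ≤ n ^ 2 → LinearIndependent K (quad x)) ∧
        Module.Finite K (QuadAlg x) ∧
        ∀ (A : Type v) [Ring A] [Algebra K A] (a : Fin n → A),
          (∀ k, ∑ i, ∑ j, x (k, i, j) • (a i * a j) = 0) →
          ∀ w : Fin N → Fin n, (List.ofFn fun s => a (w s)).prod = 0 := by
    intro K _ x hx
    rw [map_mul, map_mul] at hx
    have hxD := isUnit_of_mul_isUnit_left hx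
    have hxQ := isUnit_of_mul_isUnit_left (isUnit_of_mul_isUnit_right hx)
    have hS := hQ2 K x hxQ
    refine ⟨fun hdn => hD2 hdn K x hxD, ?_, ?_⟩
    · refine finite_of_words x N (fun l hl => ?_)
      exact word_zero (fun k i j => x (k, i, j)) hS (gen x) (gen_rel x) l hl
    · intro A _ _ a ha w
      have h1 := word_zero (fun k i j => x (k, i, j)) hS a ha (List.ofFn w) (by simp)
      rw [List.map_ofFn] at h1
      exact h1
  refine ⟨N, D * (Q * Q'), fun y => c y.1 y.2.1 y.2.2, ?_, ?_, ?_, hmain⟩
  · intro K _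
    have h1 : IsUnit (aeval (fun y : Fin d × Fin n × Fin n => ((c y.1 y.2.1 y.2.2 : ℤ) : K))
        (D * (Q * Q'))) := by
      have h2 : aeval (fun y : Fin d × Fin n × Fin n => ((c y.1 y.2.1 y.2.2 : ℤ) : K))
          (D * (Q * Q')) = ((eval (fun y : Fin d × Fin n × Fin n => c y.1 y.2.1 y.2.2)
            (D * (Q * Q')) : ℤ) : K) := by
        exact aeval_algebraMap_apply (A := ℤ) K
          (fun y : Fin d × Fin n × Fin n => c y.1 y.2.1 y.2.2) (D * (Q * Q'))
      rw [h2, map_mul, map_mul, hD1, hQ1, hQ1']
      simp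
    exact ⟨quad_mem _, (hmain K _ h1).1, (hmain K _ h1).2.1⟩
  · intro A _ a ha w
    have hS := hQ2' ℤ (fun y => c y.1 y.2.1 y.2.2) (by
      rw [show aeval (fun y : Fin d × Fin n × Fin n => c y.1 y.2.1 y.2.2) Q' =
        eval (fun y : Fin d × Fin n × Fin n => c y.1 y.2.1 y.2.2) Q' from by
          simp [aeval_eq_eval], hQ1']
      exact isUnit_one)
    have h1 := word_zero (fun k i j => c k i j) hS a ha (List.ofFn w) (by simp)
    rw [List.map_ofFn] at h1
    exact h1
  · rw [map_mul, map_mul, hD1, hQ1, hQ1']
    norm_num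

end Pool.Agent.Results.MP_f6e06e_al.IntegralPresentations
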